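import Pool.Agent.helper64.LP.Defs

/-!
# Straight-line drawings are drawings
-/

set_option autoImplicit false

namespace Pool.Agent.helper64.LP

namespace Straight

open Set

/-- cross product -/
def cr (a b : ℂ) : ℝ := a.re * b.im - a.im * b.re

lemma mem_seg {a b z : ℂ} : z ∈ segment ℝ a b ↔ ∃ s : ℝ, 0 ≤ s ∧ s ≤ 1 ∧ z = a + s • (b - a) := by
  rw [segment_eq_image']
  constructor
  · rintro ⟨s, hs, rfl⟩
    exact ⟨s, hs.1, hs.2, rfl⟩
  · rintro ⟨s, h0, h1, rfl⟩
    exact ⟨s, ⟨h0, h1⟩, rfl⟩

lemma cr_smul_left (s : ℝ) (a b : ℂ) : cr (s • a) b = s * cr a b := by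
  simp only [cr, Complex.smul_re, Complex.smul_im, smul_eq_mul]; ring

lemma cr_self (a : ℂ) : cr a a = 0 := by simp only [cr]; ring

/-- parallel vectors -/
lemma exists_smul_of_cr {a b : ℂ} (ha : a ≠ 0) (h : cr a b = 0) : ∃ l : ℝ, b = l • a := by
  have hn : a.re * a.re + a.im * a.im ≠ 0 := by
    intro h0
    apply ha
    have h1 : a.re = 0 := by nlinarith [mul_self_nonneg a.re, mul_self_nonneg a.im]
    have h2 : a.im = 0 := by nlinarith [mul_self_nonneg a.re, mul_self_nonneg a.im]
    exact Complex.ext h1 h2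
  refine ⟨(a.re * b.re + a.im * b.im) / (a.re * a.re + a.im * a.im), ?_⟩
  unfold cr at h
  apply Complex.ext
  · simp only [Complex.smul_re, smul_eq_mul]
    rw [div_mul_eq_mul_div, eq_div_iff hn]
    linear_combination (-a.im) * h
  · simp only [Complex.smul_im, smul_eq_mul]
    rw [div_mul_eq_mul_div, eq_div_iff hn]
    linear_combination a.re * h

lemma seg_meet {u v x y z : ℂ} (huv : u ≠ v) (hxy : x ≠ y)
    (h1 : x ∈ segment ℝ u v → x = u ∨ x = v) (h2 : y ∈ segment ℝ u v → y = u ∨ y = v)
    (h3 : u ∈ segment ℝ x y → u = x ∨ u = y) (h4 : v ∈ segment ℝ x y → v = x ∨ v = y)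
    (hne : ¬ ((u = x ∧ v = y) ∨ (u = y ∧ v = x))) (hz : z ∈ segment ℝ u v)
    (hz' : z ∈ segment ℝ x y) :
    (z = u ∧ (u = x ∨ u = y)) ∨ (z = v ∧ (v = x ∨ v = y)) ∨
      (cr (v - u) (y - x) ≠ 0 ∧ ∃ s t : ℝ, 0 < s ∧ s < 1 ∧ 0 < t ∧ t < 1 ∧
        z = u + s • (v - u) ∧ z = x + t • (y - x)) := by
  obtain ⟨s, hs0, hs1, hs⟩ := mem_seg.1 hz
  obtain ⟨t, ht0, ht1, ht⟩ := mem_seg.1 hz'
  by_cases hs0' : s = 0
  · left
    have : z = u := by rw [hs, hs0']; simp
    exact ⟨this, h3 (this ▸ hz')⟩
  by_cases hs1' : s = 1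
  · right; left
    have : z = v := by rw [hs, hs1']; simp
    exact ⟨this, h4 (this ▸ hz')⟩
  have hs0p : 0 < s := lt_of_le_of_ne hs0 (Ne.symm hs0')
  have hs1p : s < 1 := lt_of_le_of_ne hs1 hs1'
  have hzu : z ≠ u := by
    intro h
    rw [h] at hs
    have h5 : s • (v - u) = 0 := by
      have := hs
      linear_combination (-1 : ℂ) * this
    rcases smul_eq_zero.1 h5 with h6 | h6
    · exact hs0' h6
    · exact huv (sub_eq_zero.1 h6).symm
  have hzv : z ≠ v := by
    intro h
    rw [h] at hs
    have h5 : (1 - s) • (v - u) = 0 := by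
      rw [sub_smul, one_smul]
      linear_combination hs
    rcases smul_eq_zero.1 h5 with h6 | h6
    · exact hs1' (by linarith)
    · exact huv (sub_eq_zero.1 h6).symm
  have htx : z ≠ x := by
    intro h
    rcases h1 (h ▸ hz) with h5 | h5
    · exact hzu (h.trans h5)
    · exact hzv (h.trans h5)
  have hty : z ≠ y := by
    intro h
    rcases h2 (h ▸ hz) with h5 | h5
    · exact hzu (h.trans h5)
    · exact hzv (h.trans h5)
  have ht0' : t ≠ 0 := by
    intro h
    apply htx
    rw [ht, h]; simp
  have ht1' : t ≠ 1 := by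
    intro h
    apply hty
    rw [ht, h]; simp
  have ht0p : 0 < t := lt_of_le_of_ne ht0 (Ne.symm ht0')
  have ht1p : t < 1 := lt_of_le_of_ne ht1 ht1'
  right; right
  refine ⟨?_, s, t, hs0p, hs1p, ht0p, ht1p, hs, ht⟩
  intro hcr
  obtain ⟨l, hl⟩ := exists_smul_of_cr (sub_ne_zero.2 huv.symm) hcr
  have hl0 : l ≠ 0 := by
    intro h
    rw [h, zero_smul] at hl
    exact hxy (sub_eq_zero.1 hl).symm
  -- parameters of x and y on the line
  have hx : x = u + (s - t * l) • (v - u) := by
    have h5 : x = z - t • (y - x) := by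
      linear_combination (-1 : ℂ) * ht
    rw [h5, hl, hs, smul_smul, sub_smul]
    ring
  have hy : y = u + (s + (1 - t) * l) • (v - u) := by
    have h5 : y = x + (y - x) := by ring
    rw [h5, hl]
    conv_lhs => rw [hx]
    rw [add_assoc, ← add_smul]
    congr 2
    ring
  set p := s - t * l with hp
  set q := s + (1 - t) * l with hq
  have hinj : ∀ a b : ℝ, u + a • (v - u) = u + b • (v - u) → a = b := by
    intro a b hab
    have h5 : (a - b) • (v - u) = 0 := by
      rw [sub_smul]
      linear_combination hab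
    rcases smul_eq_zero.1 h5 with h6 | h6
    · linarith
    · exact absurd (sub_eq_zero.1 h6).symm huv
  have hqp : q - p = l := by rw [hp, hq]; ring
  have hseg : ∀ a : ℝ, ((p ≤ a ∧ a ≤ q) ∨ (q ≤ a ∧ a ≤ p)) → u + a • (v - u) ∈ segment ℝ x y := by
    intro a ha
    rw [mem_seg]
    refine ⟨(a - p) / (q - p), ?_, ?_, ?_⟩
    · rcases ha with ha | ha
      · exact div_nonneg (by linarith) (by linarith)
      · exact div_nonneg_of_nonpos (by linarith) (by linarith)
    · rcases ha with ha | ha
      · rcases eq_or_lt_of_le (show 0 ≤ q - p by linarith) with h5 | h5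
        · rw [← h5, div_zero]; norm_num
        · rw [div_le_one h5]; linarith
      · rcases eq_or_lt_of_le (show q - p ≤ 0 by linarith) with h5 | h5
        · rw [h5, div_zero]; norm_num
        · rw [div_le_one_of_neg h5]; linarith
    · rw [hl]
      have h6 : ((a - p) / (q - p)) • (l • (v - u)) = (a - p) • (v - u) := by
        rw [smul_smul, hqp, div_mul_cancel₀ _ hl0]
      rw [h6]
      conv_rhs => rw [hx]
      rw [add_assoc, ← add_smul]
      congr 2
      ring
  -- no end point of `xy` is strictly inside `uv`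
  have hin : ∀ a : ℝ, 0 < a → a < 1 → a ≠ p ∧ a ≠ q := by
    intro a ha0 ha1
    constructor
    · intro h
      have h5 : x ∈ segment ℝ u v := mem_seg.2 ⟨p, by linarith, by linarith, hx⟩
      rcases h1 h5 with h6 | h6
      · have := hinj p 0 (by rw [← hx, zero_smul, add_zero, h6])
        linarith
      · have := hinj p 1 (by rw [← hx, one_smul, h6]; ring)
        linarith
    · intro h
      have h5 : y ∈ segment ℝ u v := mem_seg.2 ⟨q, by linarith, by linarith, hy⟩
      rcases h2 h5 with h6 | h6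
      · have := hinj q 0 (by rw [← hy, zero_smul, add_zero, h6])
        linarith
      · have := hinj q 1 (by rw [← hy, one_smul, h6]; ring)
        linarith
  have hu : u = x ∨ u = y := by
    have key : (p ≤ 0 ∧ 0 ≤ q) ∨ (q ≤ 0 ∧ 0 ≤ p) := by
      rcases lt_or_gt_of_ne hl0 with hl' | hl'
      · right
        have h6 : q < s := by rw [hq]; nlinarith
        have h7 : s < p := by rw [hp]; nlinarith
        refine ⟨?_, by linarith⟩
        by_contra hcon
        push Not at hcon
        exact (hin q hcon (by linarith)).2 rfl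
      · left
        have h6 : s < q := by rw [hq]; nlinarith
        have h7 : p < s := by rw [hp]; nlinarith
        refine ⟨?_, by linarith⟩
        by_contra hcon
        push Not at hcon
        exact (hin p hcon (by linarith)).1 rfl
    have := hseg 0 key
    rw [zero_smul, add_zero] at this
    exact h3 this
  have hv : v = x ∨ v = y := by
    have key : (p ≤ 1 ∧ 1 ≤ q) ∨ (q ≤ 1 ∧ 1 ≤ p) := by
      rcases lt_or_gt_of_ne hl0 with hl' | hl'
      · right
        have h6 : q < s := by rw [hq]; nlinarith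
        have h7 : s < p := by rw [hp]; nlinarith
        refine ⟨by linarith, ?_⟩
        by_contra hcon
        push Not at hcon
        exact (hin p (by linarith) hcon).1 rfl
      · left
        have h6 : s < q := by rw [hq]; nlinarith
        have h7 : p < s := by rw [hp]; nlinarith
        refine ⟨by linarith, ?_⟩
        by_contra hcon
        push Not at hcon
        exact (hin q (by linarith) hcon).2 rfl
    have := hseg 1 key
    rw [one_smul, add_sub_cancel] at this
    exact h4 this
  rcases hu with hu | hu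
  · rcases hv with hv | hv
    · exact huv (hu.trans hv.symm)
    · exact hne (Or.inl ⟨hu, hv⟩)
  · rcases hv with hv | hv
    · exact hne (Or.inr ⟨hu, hv⟩)
    · exact huv (hu.trans hv.symm)

/-- the affine chart -/
noncomputable def chart (z d₁ d₂ : ℂ) (h : cr d₁ d₂ ≠ 0) : ℂ ≃ₜ ℂ where
  toFun w := ⟨cr (w - z) d₂ / cr d₁ d₂, cr d₁ (w - z) / cr d₁ d₂⟩
  invFun ζ := z + (ζ.re • d₁ + ζ.im • d₂)
  left_inv w := by
    apply Complex.ext
    · simp only [Complex.add_re, Complex.smul_re, smul_eq_mul]
      field_simp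
      simp only [cr, Complex.sub_re, Complex.sub_im]
      ring
    · simp only [Complex.add_im, Complex.smul_im, smul_eq_mul]
      field_simp
      simp only [cr, Complex.sub_re, Complex.sub_im]
      ring
  right_inv ζ := by
    apply Complex.ext
    · simp only [add_sub_cancel_left]
      rw [div_eq_iff h]
      simp only [cr, Complex.add_re, Complex.add_im, Complex.smul_re, Complex.smul_im, smul_eq_mul]
      ring
    · simp only [add_sub_cancel_left]
      rw [div_eq_iff h]
      simp only [cr, Complex.add_re, Complex.add_im, Complex.smul_re, Complex.smul_im, smul_eq_mul]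
      ring
  continuous_toFun := by
    have h1 : Continuous fun w : ℂ => cr (w - z) d₂ / cr d₁ d₂ := by
      unfold cr
      fun_prop
    have h2 : Continuous fun w : ℂ => cr d₁ (w - z) / cr d₁ d₂ := by
      unfold cr
      fun_prop
    exact Complex.equivRealProdCLM.symm.continuous.comp (h1.prodMk h2)
  continuous_invFun := by fun_prop

lemma chart_re (z d₁ d₂ : ℂ) (h : cr d₁ d₂ ≠ 0) (w : ℂ) :
    (chart z d₁ d₂ h w).re = cr (w - z) d₂ / cr d₁ d₂ := rfl

lemma chart_im (z d₁ d₂ : ℂ) (h : cr d₁ d₂ ≠ 0) (w : ℂ) :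
    (chart z d₁ d₂ h w).im = cr d₁ (w - z) / cr d₁ d₂ := rfl

lemma proper {u v x y z : ℂ} {s t : ℝ} (hcr : cr (v - u) (y - x) ≠ 0) (hs0 : 0 < s) (hs1 : s < 1)
    (ht0 : 0 < t) (ht1 : t < 1) (hs : z = u + s • (v - u)) (ht : z = x + t • (y - x)) :
    ProperCrossing (segment ℝ u v) (segment ℝ x y) z := by
  set e := chart z (v - u) (y - x) hcr with he
  set ε := min (min s (1 - s)) (min t (1 - t)) with hε
  have hε0 : 0 < ε := by
    rw [hε]
    refine lt_min (lt_min hs0 (by linarith)) (lt_min ht0 (by linarith))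
  have hε1 : ε ≤ s := (min_le_left _ _).trans (min_le_left _ _)
  have hε2 : ε ≤ 1 - s := (min_le_left _ _).trans (min_le_right _ _)
  have hε3 : ε ≤ t := (min_le_right _ _).trans (min_le_left _ _)
  have hε4 : ε ≤ 1 - t := (min_le_right _ _).trans (min_le_right _ _)
  set U : Set ℂ := {w | |(e w).re| < ε ∧ |(e w).im| < ε} with hU
  have hUo : IsOpen U := by
    have h1 : Continuous fun w => |(e w).re| := (Complex.continuous_re.comp e.continuous).abs
    have h2 : Continuous fun w => |(e w).im| := (Complex.continuous_im.comp e.continuous).abs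
    exact (isOpen_lt h1 continuous_const).inter (isOpen_lt h2 continuous_const)
  have hez : e z = 0 := by
    apply Complex.ext
    · rw [he, chart_re, sub_self]; simp [cr]
    · rw [he, chart_im, sub_self]; simp [cr]
  have hw : ∀ w, w = z + ((e w).re • (v - u) + (e w).im • (y - x)) := fun w =>
    ((chart z (v - u) (y - x) hcr).left_inv w).symm
  refine ⟨e.toOpenPartialHomeomorph.restrOpen U hUo, ?_, ?_, ?_, ?_⟩
  · refine ⟨mem_univ _, ?_⟩
    change |(e z).re| < ε ∧ |(e z).im| < ε
    rw [hez]; simp [hε0]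
  · exact hez
  · rintro w ⟨-, hwU⟩
    change |(e w).re| < ε ∧ |(e w).im| < ε at hwU
    change w ∈ segment ℝ u v ↔ (e w).im = 0
    constructor
    · intro hmem
      obtain ⟨s', -, -, hs'⟩ := mem_seg.1 hmem
      have : w - z = (s' - s) • (v - u) := by
        rw [hs', hs, sub_smul]; ring
      rw [he, chart_im, this]
      have h5 : cr (v - u) ((s' - s) • (v - u)) = 0 := by
        simp only [cr, Complex.smul_re, Complex.smul_im, smul_eq_mul]; ring
      rw [h5, zero_div]
    · intro h0
      have h5 := hw w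
      rw [h0, zero_smul, add_zero] at h5
      rw [mem_seg]
      have h6 := abs_lt.1 hwU.1
      refine ⟨s + (e w).re, by linarith [h6.1], by linarith [h6.2], ?_⟩
      conv_lhs => rw [h5]
      rw [hs, add_smul]; ring
  · rintro w ⟨-, hwU⟩
    change |(e w).re| < ε ∧ |(e w).im| < ε at hwU
    change w ∈ segment ℝ x y ↔ (e w).re = 0
    constructor
    · intro hmem
      obtain ⟨s', -, -, hs'⟩ := mem_seg.1 hmem
      have : w - z = (s' - t) • (y - x) := by
        rw [hs', ht, sub_smul]; ring
      rw [he, chart_re, this]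
      have h5 : cr ((s' - t) • (y - x)) (y - x) = 0 := by
        simp only [cr, Complex.smul_re, Complex.smul_im, smul_eq_mul]; ring
      rw [h5, zero_div]
    · intro h0
      have h5 := hw w
      rw [h0, zero_smul, zero_add] at h5
      rw [mem_seg]
      have h6 := abs_lt.1 hwU.2
      refine ⟨t + (e w).im, by linarith [h6.1], by linarith [h6.2], ?_⟩
      conv_lhs => rw [h5]
      rw [ht, add_smul]; ring

end Straight

open Straight in
/-- Straight-line drawings are drawings. -/
theorem straight_aux {V : Type} (G : SimpleGraph V) (pt : V → ℂ) (hinj : Function.Injective pt)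
    (h : ∀ u v, G.Adj u v → ∀ w, pt w ∈ segment ℝ (pt u) (pt v) → w = u ∨ w = v) :
    ∃ D : Drawing G, D.pos = pt ∧ ∀ u v, D.arc s(u, v) = segment ℝ (pt u) (pt v) := by
  let arc : Sym2 V → Set ℂ := Sym2.lift ⟨fun u v => segment ℝ (pt u) (pt v),
    fun u v => segment_symm ℝ (pt u) (pt v)⟩
  have key : ∀ u v x y z, G.Adj u v → G.Adj x y → s(u, v) ≠ s(x, y) →
      z ∈ segment ℝ (pt u) (pt v) → z ∈ segment ℝ (pt x) (pt y) →
      ((z = pt u ∧ (u = x ∨ u = y)) ∨ (z = pt v ∧ (v = x ∨ v = y)) ∨
      (cr (pt v - pt u) (pt y - pt x) ≠ 0 ∧ ∃ s t : ℝ, 0 < s ∧ s < 1 ∧ 0 < t ∧ t < 1 ∧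
        z = pt u + s • (pt v - pt u) ∧ z = pt x + t • (pt y - pt x))) := by
    intro u v x y z huv hxy hne hz hz'
    have h5 := seg_meet (u := pt u) (v := pt v) (x := pt x) (y := pt y) (z := z)
      (fun h => huv.ne (hinj h)) (fun h => hxy.ne (hinj h))
      (fun h' => (h u v huv x h').imp (congrArg pt) (congrArg pt))
      (fun h' => (h u v huv y h').imp (congrArg pt) (congrArg pt))
      (fun h' => (h x y hxy u h').imp (congrArg pt) (congrArg pt))
      (fun h' => (h x y hxy v h').imp (congrArg pt) (congrArg pt))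
      (by
        rintro (⟨h6, h7⟩ | ⟨h6, h7⟩)
        · exact hne (by rw [hinj h6, hinj h7])
        · exact hne (by rw [hinj h6, hinj h7]; exact Sym2.eq_swap)) hz hz'
    rcases h5 with ⟨h5, h6⟩ | ⟨h5, h6⟩ | h5
    · exact Or.inl ⟨h5, h6.imp (fun h => hinj h) (fun h => hinj h)⟩
    · exact Or.inr (Or.inl ⟨h5, h6.imp (fun h => hinj h) (fun h => hinj h)⟩)
    · exact Or.inr (Or.inr h5)
  refine ⟨{ pos := pt, pos_inj := hinj, arc := arc, isArc := ?_, avoid := ?_, finite := ?_,
            proper := ?_ }, rfl, fun u v => rfl⟩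
  · intro u v huv
    have hne : pt u ≠ pt v := fun h => huv.ne (hinj h)
    refine ⟨fun t => AffineMap.lineMap (pt u) (pt v) (t : ℝ), ?_, ?_, ?_, ?_, ?_⟩
    · exact (AffineMap.lineMap_continuous).comp continuous_subtype_val
    · intro s t hst
      exact Subtype.ext (AffineMap.lineMap_injective ℝ hne hst)
    · simp
    · simp
    · change _ = segment ℝ (pt u) (pt v)
      rw [segment_eq_image_lineMap]
      ext z
      constructor
      · rintro ⟨t, rfl⟩
        exact ⟨t, t.2, rfl⟩
      · rintro ⟨t, ht, rfl⟩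
        exact ⟨⟨t, ht⟩, rfl⟩
  · intro u v w huv hw
    exact h u v huv w hw
  · intro e he f hf hef
    induction e with | _ u v
    induction f with | _ x y
    have huv : G.Adj u v := he
    have hxy : G.Adj x y := hf
    change (segment ℝ (pt u) (pt v) ∩ segment ℝ (pt x) (pt y)).Finite
    by_cases hcr : cr (pt v - pt u) (pt y - pt x) = 0
    · refine ((Set.finite_singleton (pt v)).insert (pt u)).subset ?_
      rintro z ⟨hz, hz'⟩
      rcases key u v x y z huv hxy hef hz hz' with h5 | h5 | h5
      · exact Or.inl h5.1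
      · exact Or.inr h5.1
      · exact absurd hcr h5.1
    · apply Set.Subsingleton.finite
      rintro z ⟨hz, hz'⟩ w ⟨hw, hw'⟩
      obtain ⟨s, -, -, hs⟩ := mem_seg.1 hz
      obtain ⟨t, -, -, ht⟩ := mem_seg.1 hz'
      obtain ⟨s', -, -, hs'⟩ := mem_seg.1 hw
      obtain ⟨t', -, -, ht'⟩ := mem_seg.1 hw'
      have h5 : (s - s') • (pt v - pt u) = (t - t') • (pt y - pt x) := by
        rw [sub_smul, sub_smul]
        linear_combination ht - hs - ht' + hs'
      have h6 : (s - s') * cr (pt v - pt u) (pt y - pt x) = 0 := by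
        rw [← cr_smul_left, h5, cr_smul_left, cr_self, mul_zero]
      rcases mul_eq_zero.1 h6 with h7 | h7
      · have : s = s' := by linarith
        rw [hs, hs', this]
      · exact absurd h7 hcr
  · intro e he f hf hef z hz
    induction e with | _ u v
    induction f with | _ x y
    have huv : G.Adj u v := he
    have hxy : G.Adj x y := hf
    rcases key u v x y z huv hxy hef hz.1 hz.2 with h5 | h5 | ⟨h5, s, t, h6, h7, h8, h9, h10, h11⟩
    · left
      refine ⟨u, by simp, ?_, h5.1⟩
      rcases h5.2 with h6 | h6 <;> simp [h6]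
    · left
      refine ⟨v, by simp, ?_, h5.1⟩
      rcases h5.2 with h6 | h6 <;> simp [h6]
    · right
      exact proper h5 h6 h7 h8 h9 h10 h11

/-- A straight-line drawing in which no two edges of a path of length at most `k` cross. -/
theorem straight {V : Type} [Finite V] {k : ℕ} {G : SimpleGraph V} (pos : V → ℂ)
    (hinj : Function.Injective pos)
    (havoid : ∀ u v w, G.Adj u v → pos w ∈ segment ℝ (pos u) (pos v) → w = u ∨ w = v)
    (hnear : ∀ a b c d, G.Adj a b → G.Adj c d → s(a, b) ≠ s(c, d) →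
      (∃ (u v : V) (p : G.Walk u v), p.IsPath ∧ p.length ≤ k ∧ s(a, b) ∈ p.edges ∧
        s(c, d) ∈ p.edges) →
      ∀ z ∈ segment ℝ (pos a) (pos b) ∩ segment ℝ (pos c) (pos d),
        ∃ v, v ∈ s(a, b) ∧ v ∈ s(c, d) ∧ z = pos v) :
    LocallyPlanar k G := by
  obtain ⟨D, hD, harc⟩ := straight_aux G pos hinj (fun u v huv w hw => havoid u v w huv hw)
  refine ⟨D, ?_⟩
  intro u v p hp hlen e he f hf hef
  rintro ⟨z, hz, hno⟩
  induction e with | _ a b
  induction f with | _ c d
  rw [harc, harc] at hz
  have hab : G.Adj a b := p.adj_of_mem_edges he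
  have hcd : G.Adj c d := p.adj_of_mem_edges hf
  obtain ⟨w, h1, h2, h3⟩ := hnear a b c d hab hcd hef ⟨u, v, p, hp, hlen, he, hf⟩ z hz
  exact hno ⟨w, h1, h2, by rw [hD]; exact h3⟩

end Pool.Agent.helper64.LP
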